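import Mathlib
import Pool.Agent.W980.GC.Core

/-!
Gap clique is hard on average for parallel machines: coupled graphs.
-/

set_option linter.unusedSectionVars false

namespace Pool.Agent.W980.GR

open Finset DomAC0 H568R2 SmallDepth H592R3 H592R3.Mb2 H592R3.Mb3 H592R3.MbU Pool.Agent.H72.Clq
open Pool.Agent.W980.GC
open Pool.Agent.W964.Pram hiding push push_sum push_total push_nonneg push_ne

open Classical in
theorem core_coupled (t : ℕ) (δ : ℝ) (hδ : 5 ≤ t * δ) (T D m' b n : ℕ) (hD3 : D = 3 * (T + 1))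
    (hm' : 3 ≤ m') (hb : 1 ≤ b)
    (hA : 2 * (12 * (2 * (D * (E1 12 * m' + 1)))) ^ 16 ≤ 2 ^ b)
    (hB1 : 2 ^ (2 * 12 + 16) * b ^ 4 ≤ 2 ^ b)
    (hB2 : 4 * 12 + 8 ≤ D * b) (hB3 : 32 * E1 12 ≤ b)
    (hn : 12 * m' * (2 ^ (2 * D * b)) ^ (t * (2 * 12 ^ 2 + 14 + 1)) ≤ n)
    (hc : 1 ≤ δ * (12 * m' : ℕ)) :
    ∃ (Λ : Type) (_ : Fintype Λ) (μ : Λ → ℝ) (G₀ G₁ : Λ → SimpleGraph (Fin n)),
      (∀ l, 0 ≤ μ l) ∧ ∑ l, μ l = 1 ∧ (∀ l, ¬ (G₁ l).CliqueFree (12 * m')) ∧
      (∑ l, μ l * (if CliquesLe (δ * (12 * m' : ℕ)) (G₀ l) then 0 else 1)) ≤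
        (2 : ℝ) ^ (-((((2 * 12 - 12) * (D * b * m') : ℕ) : ℝ) / 10)) ∧
      ∀ (P Kl : ℕ) (M : Machine (Pairs n) P), M.Lists Kl → Kl ≤ 2 ^ (2 * 12 ^ 2 * (D * b * m')) →
        P + Fintype.card (Pairs n) ≤ 2 ^ ((2 * 12 - 12) * (D * b * m')) →
        ∑ l, μ l * (if M.answer T (adjBits (G₀ l)) ≠ M.answer T (adjBits (G₁ l)) then 1 else 0) ≤
          3 / 2 ^ (D * b) := by
  have hD : 1 ≤ D := by omega
  obtain ⟨s, hs, hsexp, hssm⟩ := scopes2 12 m' (by norm_num) (by omega)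
  have hQm : 1 ≤ 12 * m' := by omega
  obtain ⟨f, hf⟩ := sampler (12 * m') t hQm δ hδ
  obtain ⟨ι⟩ : Nonempty (W (12 * m') (2 * 12 ^ 2 + 14 + 1) (2 ^ (2 * D * b)) t ↪ Fin n) := by
    apply Function.Embedding.nonempty_of_card_le
    rw [Fintype.card_prod, Fintype.card_fun, Fintype.card_prod, Fintype.card_fin,
      Fintype.card_fin, Fintype.card_fin, Fintype.card_fin, Fintype.card_fin]
    exact hn
  obtain ⟨dec, hdec'⟩ : ∃ dec : Fin n → Option (W (12 * m') (2 * 12 ^ 2 + 14 + 1)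
      (2 ^ (2 * D * b)) t), ∀ a, dec (ι a) = some a :=
    ⟨Function.partialInv ι, fun a => (Function.partialInv_of_injective ι.injective a (ι a)).2 rfl⟩
  have hdec : ∀ a, ∃ u, dec u = some a := fun a => ⟨ι a, hdec' a⟩
  obtain ⟨p, hp⟩ : ∃ p : ℝ, p = (1 / ((2 : ℝ) ^ (D * b)) ^ 3) / 2 := ⟨_, rfl⟩
  have hp0 : 0 ≤ p := by rw [hp]; positivity
  have hp1 : p ≤ 1 := by
    have h1 : (1 : ℝ) ≤ ((2 : ℝ) ^ (D * b)) ^ 3 := one_le_pow₀ (one_le_pow₀ (by norm_num))
    have h2 : 1 / ((2 : ℝ) ^ (D * b)) ^ 3 ≤ 1 := by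
      rw [div_le_one (by positivity)]; exact h1
    rw [hp]
    linarith
  have hμ : ∀ X : (Fin (12 * m') × (Fin (2 * 12 ^ 2 + 14 + 1) → Fin (2 ^ (2 * D * b)))) → Bool,
      0 ≤ ∏ i, vp p (X i) := fun X => Finset.prod_nonneg fun i _ => vp_nonneg hp0 hp1 _
  have hμ1 : ∑ X : (Fin (12 * m') × (Fin (2 * 12 ^ 2 + 14 + 1) → Fin (2 ^ (2 * D * b)))) → Bool,
      ∏ i, vp p (X i) = 1 := by
    have := Ex_const (I := Fin (12 * m') × (Fin (2 * 12 ^ 2 + 14 + 1) → Fin (2 ^ (2 * D * b))))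
      (vp_sum p) (1 : ℝ)
    unfold Ex at this
    simpa using this
  have hNp : (0 : ℝ) < (((2 ^ (2 * D * b) : ℕ) : ℝ)) ^ (12 * m') := by positivity
  have hN1 : 0 < 2 ^ (2 * D * b) := Nat.two_pow_pos _
  have hmarg : ∀ F : ((Fin (12 * m') × (Fin (2 * 12 ^ 2 + 14 + 1) →
      Fin (2 ^ (2 * D * b)))) → Bool) → ℝ,
      ∑ Xa : ((Fin (12 * m') × (Fin (2 * 12 ^ 2 + 14 + 1) → Fin (2 ^ (2 * D * b)))) → Bool) ×
        (Fin (12 * m') → Fin (2 ^ (2 * D * b))), ((∏ i, vp p (Xa.1 i)) *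
          (1 / (((2 ^ (2 * D * b) : ℕ) : ℝ)) ^ (12 * m'))) * F Xa.1 =
      ∑ X, (∏ i, vp p (X i)) * F X := by
    intro F
    rw [Fintype.sum_prod_type]
    dsimp only
    simp_rw [Finset.sum_const, Finset.card_univ, Fintype.card_fun, Fintype.card_fin, nsmul_eq_mul]
    refine Finset.sum_congr rfl fun X _ => ?_
    push_cast
    field_simp
  refine ⟨((Fin (12 * m') × (Fin (2 * 12 ^ 2 + 14 + 1) → Fin (2 ^ (2 * D * b)))) → Bool) ×
      (Fin (12 * m') → Fin (2 ^ (2 * D * b))), inferInstance,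
    fun Xa => (∏ i, vp p (Xa.1 i)) * (1 / (((2 ^ (2 * D * b) : ℕ) : ℝ)) ^ (12 * m')),
    fun Xa => Gx s f dec Xa.1, fun Xa => Gx s f dec (plant (vr s Xa.2) univ Xa.1),
    fun Xa => mul_nonneg (hμ _) (by positivity), ?_, ?_, ?_, ?_⟩
  · have := hmarg (fun _ => 1)
    simp only [mul_one] at this
    rw [this, hμ1]
  · intro Xa
    refine clique_of_sat s f dec hdec _ Xa.2 ?_
    intro c
    unfold plant
    simp only [Finset.mem_univ, true_and, Bool.or_eq_true, decide_eq_true_eq]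
    exact Or.inl ⟨c, rfl⟩
  · rw [hmarg (fun X => if CliquesLe (δ * (12 * m' : ℕ)) (Gx s f dec X) then (0 : ℝ) else 1)]
    obtain ⟨L, hLdef⟩ : ∃ L : ℕ, L = 3 * (12 * m') / 4 + 1 := ⟨_, rfl⟩
    have h1 := gap_prob (N := 2 ^ (2 * D * b)) s hp0 hp1 L
    have hQe : 12 * m' ≤ D * (E1 12 * m' + 1) := by
      calc 12 * m' ≤ E1 12 * m' := Nat.mul_le_mul_right _ (by unfold E1 E0; omega)
        _ ≤ 1 * (E1 12 * m' + 1) := by omega
        _ ≤ D * (E1 12 * m' + 1) := Nat.mul_le_mul_right _ hD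
    have hbig : 2 * (24 * (12 * m')) ^ 16 ≤ 2 ^ (D * b) := by
      calc 2 * (24 * (12 * m')) ^ 16 ≤ 2 * (12 * (2 * (D * (E1 12 * m' + 1)))) ^ 16 := by
            apply Nat.mul_le_mul_left
            apply Nat.pow_le_pow_left
            omega
        _ ≤ 2 ^ b := hA
        _ ≤ 2 ^ (D * b) := Nat.pow_le_pow_right (by norm_num)
            (Nat.le_mul_of_pos_left b (by omega))
    have h2 := gap_arith 12 D b m' ((2 * 12 - 12) * (D * b * m')) L 0 (by norm_num) hbig hQm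
      (by omega) (by rw [sub_zero, one_mul])
    rw [← hp, sub_zero, one_mul] at h2
    refine le_trans ?_ (h1.trans h2)
    unfold Ex
    refine Finset.sum_le_sum fun X _ => ?_
    beta_reduce
    by_cases hX : CliquesLe (δ * (12 * m' : ℕ)) (Gx s f dec X)
    · rw [if_pos hX, mul_zero]
      apply mul_nonneg (hμ X)
      split_ifs <;> norm_num
    · rw [if_neg hX, if_pos]
      unfold CliquesLe at hX
      push Not at hX
      obtain ⟨S, hS, hcard⟩ := hX
      have hS2 : 2 ≤ S.card := by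
        have : (1 : ℝ) < S.card := lt_of_le_of_lt hc hcard
        exact_mod_cast this
      obtain ⟨α, hα⟩ := sat_of_clique s f dec hN1 X S hS hS2
      refine ⟨α, ?_⟩
      by_contra hlt
      have h4 := hf (univ.filter (fun c => X (vr s α c) = true)) (by omega)
      have h5 : (univ.filter (fun j => ∀ i, X (vr s α (f j i)) = true)).card =
          (univ.filter (fun j => ∀ i, f j i ∈
            univ.filter (fun c => X (vr s α c) = true))).card := by
        congr 1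
        refine Finset.filter_congr fun j _ => ?_
        simp only [Finset.mem_filter, Finset.mem_univ, true_and]
      rw [h5] at hα
      have h6 : (S.card : ℝ) ≤ ((univ.filter (fun j => ∀ i, f j i ∈
            univ.filter (fun c => X (vr s α c) = true))).card : ℝ) := by exact_mod_cast hα
      linarith
  · intro P Kl M hM hKl hP
    obtain ⟨e⟩ : Nonempty (Pairs n ≃ Fin (Fintype.card (Pairs n))) := ⟨Fintype.equivFin _⟩
    have he' : ∀ X, (andMach M e (bitList s f dec)).answer (T + 1) (sg X) =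
        M.answer T (adjBits (Gx s f dec X)) := by
      intro X
      rw [andMach_answer, bitList_eq]
    simp only [← he']
    have hσ : ∀ j, Junta 1 (fun X : (Fin (12 * m') × (Fin (2 * 12 ^ 2 + 14 + 1) →
        Fin (2 ^ (2 * D * b)))) → Bool => sg X j) := by
      intro j
      cases j with
      | none => exact ⟨∅, by simp, fun X Y _ => rfl⟩
      | some x =>
        refine ⟨{x}, by simp, fun X Y h => ?_⟩
        exact h x (by simp)
    have hbits : 12 * m' * (2 ^ (2 * D * b)) ^ (2 * 12 ^ 2 + 14 + 1) + 1 ≤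
        2 ^ (2 * 12 ^ 2 * (D * b * m')) := by
      have h1 : 12 * m' + 1 ≤ 2 ^ b := by
        refine le_trans ?_ hA
        have h2 : 12 * m' + 1 ≤ 12 * (2 * (D * (E1 12 * m' + 1))) := by
          have h3 : m' + 1 ≤ D * (E1 12 * m' + 1) := by
            calc m' + 1 ≤ 1 * (E1 12 * m' + 1) := by
                  have : m' ≤ E1 12 * m' := Nat.le_mul_of_pos_left _ (by unfold E1; omega)
                  omega
              _ ≤ D * (E1 12 * m' + 1) := Nat.mul_le_mul_right _ hD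
          omega
        calc 12 * m' + 1 ≤ 12 * (2 * (D * (E1 12 * m' + 1))) := h2
          _ ≤ (12 * (2 * (D * (E1 12 * m' + 1)))) ^ 16 := Nat.le_self_pow (by norm_num) _
          _ ≤ _ := Nat.le_mul_of_pos_left _ (by norm_num)
      have h4 : b ≤ D * b := Nat.le_mul_of_pos_left _ (by omega)
      calc 12 * m' * (2 ^ (2 * D * b)) ^ (2 * 12 ^ 2 + 14 + 1) + 1
          ≤ 12 * m' * (2 ^ (2 * D * b)) ^ (2 * 12 ^ 2 + 14 + 1) +
            (2 ^ (2 * D * b)) ^ (2 * 12 ^ 2 + 14 + 1) := by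
              apply Nat.add_le_add_left
              exact Nat.one_le_pow _ _ (Nat.two_pow_pos _)
        _ = (12 * m' + 1) * (2 ^ (2 * D * b)) ^ (2 * 12 ^ 2 + 14 + 1) := by ring
        _ ≤ 2 ^ b * (2 ^ (2 * D * b)) ^ (2 * 12 ^ 2 + 14 + 1) := Nat.mul_le_mul_right _ h1
        _ = 2 ^ (b + 606 * (D * b)) := by
            rw [← pow_mul, ← pow_add]
            congr 1
            ring
        _ ≤ 2 ^ (2 * 12 ^ 2 * (D * b * m')) := by
            apply Nat.pow_le_pow_right (by norm_num)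
            calc b + 606 * (D * b) ≤ 607 * (D * b) := by omega
              _ ≤ 2 * 12 ^ 2 * (D * b * 3) := by
                  have : D * b * 3 = 3 * (D * b) := mul_comm _ _
                  rw [this]
                  omega
              _ ≤ 2 * 12 ^ 2 * (D * b * m') :=
                  Nat.mul_le_mul_left _ (Nat.mul_le_mul_left _ hm')
    have hlists : ∀ q, ((andMach M e (bitList s f dec)).query q).length ≤
        2 ^ (2 * 12 ^ 2 * (D * b * m')) :=
      andMach_lists M e (bitList s f dec) (fun q => (hM q).trans hKl)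
        (fun p => (bitList_length s f dec p).trans hbits)
    subst hD3
    have hfirst := pram_first 12 (T + 1) b m' (by norm_num) (by omega) (by omega) hA hB1 hB2 hB3 s
      hsexp hssm (andMach M e (bitList s f dec)) hlists le_rfl hP sg hσ
    rw [← hp] at hfirst
    rw [Fintype.sum_prod_type]
    dsimp only
    have e1 : ∀ X : (Fin (12 * m') × (Fin (2 * 12 ^ 2 + 14 + 1) →
        Fin (2 ^ (2 * (3 * (T + 1)) * b)))) → Bool,
        (∑ a : Fin (12 * m') → Fin (2 ^ (2 * (3 * (T + 1)) * b)), ((∏ i, vp p (X i)) *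
          (1 / (((2 ^ (2 * (3 * (T + 1)) * b) : ℕ) : ℝ)) ^ (12 * m'))) *
          (if (andMach M e (bitList s f dec)).answer (T + 1) (sg X) ≠
            (andMach M e (bitList s f dec)).answer (T + 1) (sg (plant (vr s a) univ X))
            then (1 : ℝ) else 0)) =
        (1 / (((2 ^ (2 * (3 * (T + 1)) * b) : ℕ) : ℝ)) ^ (12 * m')) * ((∏ i, vp p (X i)) *
          ∑ a : Fin (12 * m') → Fin (2 ^ (2 * (3 * (T + 1)) * b)),
          (if (andMach M e (bitList s f dec)).answer (T + 1) (sg X) ≠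
            (andMach M e (bitList s f dec)).answer (T + 1) (sg (plant (vr s a) univ X))
            then (1 : ℝ) else 0)) := by
      intro X
      rw [← Finset.mul_sum]
      ring
    rw [Finset.sum_congr rfl fun X _ => e1 X, ← Finset.mul_sum]
    calc (1 / (((2 ^ (2 * (3 * (T + 1)) * b) : ℕ) : ℝ)) ^ (12 * m')) * _
        ≤ (1 / (((2 ^ (2 * (3 * (T + 1)) * b) : ℕ) : ℝ)) ^ (12 * m')) *
          (3 * (((2 : ℝ) ^ (2 * (3 * (T + 1)) * b)) ^ (12 * m') / 2 ^ (3 * (T + 1) * b))) :=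
          mul_le_mul_of_nonneg_left hfirst (by positivity)
      _ = 3 / 2 ^ (3 * (T + 1) * b) := by
          push_cast
          field_simp

end Pool.Agent.W980.GR
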