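import Mathlib
import Pool.Agent.W980.GC.Comp

/-!
Parallel machines with many output bits.
-/

set_option linter.unusedSectionVars false

namespace Pool.Agent.W980.GR

open Pool.Agent.W964.Pram Pool.Agent.W980.GC

/-- A parallel machine with output bits indexed by `I`: after `T` steps of the machine `M` the
output bit `i` is `1` if and only if some cell of the list `L i` has a content that passes the
test `sel i`. For example the output may be written bit by bit (then `L i` consists of the `i`-th
output cell), or it may be written as a list of up to `K` words (then `L i` is the same list for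
all `i`, and the output bit `i` says whether the word `i` occurs in it). -/
structure OutMachine (J : Type) (P : ℕ) (I : Type) where
  M : Machine J P
  L : I → List (J ⊕ M.A)
  sel : I → M.V → Bool

variable {J I : Type} {P : ℕ}

/-- All lists have length at most `K`. -/
def OutMachine.Lists (R : OutMachine J P I) (K : ℕ) : Prop :=
  R.M.Lists K ∧ ∀ i, (R.L i).length ≤ K

/-- The output after `T` steps on the input `x`. -/
noncomputable def OutMachine.output (R : OutMachine J P I) (T : ℕ) (x : J → Bool) : I → Bool :=
  fun i => (R.L i).any (fun c => R.sel i ((R.M.run x T).2 c))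

/-- The states of the machine that computes an output bit. -/
inductive Ot (M : Machine J P) : Type
  | run (q : M.Q) : Ot M
  | wait (t : ℕ) : Ot M
  | done (b : Bool) : Ot M

/-- The new addresses. -/
def emA {M : Machine J P} : J ⊕ M.A → J ⊕ (M.A ⊕ Unit)
  | Sum.inl j => Sum.inl j
  | Sum.inr a => Sum.inr (Sum.inl a)

lemma emA_inj {M : Machine J P} : Function.Injective (emA (M := M)) := by
  rintro (a | a) (b | b) h
  · exact congrArg _ (Sum.inl_injective h)
  · cases h
  · cases h
  · exact congrArg _ (Sum.inl_injective (Sum.inr_injective h))

/-- The machine with one more processor, that searches the list `L` after `T` steps. -/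
@[reducible] def outMach (M : Machine J P) (T : ℕ) (L : List (J ⊕ M.A)) (sel : M.V → Bool) :
    Machine J (P + 1) where
  Q := Ot M
  A := M.A ⊕ Unit
  V := M.V ⊕ Bool
  bit := fun b => Sum.inl (M.bit b)
  blank := Sum.inl M.blank
  start := Fin.addCases (fun p => Ot.run (M.start p)) (fun _ => Ot.wait 0)
  query := fun q => match q with
    | .run q => (M.query q).map emA
    | .wait t => if t = T then L.map emA else []
    | .done _ => []
  test := fun q v => match q, v with
    | .run q, Sum.inl v => M.test q v
    | .wait _, Sum.inl v => sel v
    | _, _ => false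
  next := fun q o => match q, o with
    | .run q, some (Sum.inl j, Sum.inl v) => .run (M.next q (some (Sum.inl j, v)))
    | .run q, some (Sum.inr (Sum.inl a), Sum.inl v) => .run (M.next q (some (Sum.inr a, v)))
    | .run q, _ => .run (M.next q none)
    | .wait t, o => if t = T then .done o.isSome else .wait (t + 1)
    | .done b, _ => .done b
  write := fun q => match q with
    | .run q => (M.write q).map (fun w => (emA w.1, Sum.inl w.2))
    | .wait _ => none
    | .done b => some (Sum.inr (Sum.inr ()), Sum.inr b)
  out := Sum.inr (Sum.inr ())
  accept := fun v => match v with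
    | Sum.inr b => b
    | _ => false

lemma outMach_lists (M : Machine J P) (T : ℕ) (L : List (J ⊕ M.A)) (sel : M.V → Bool) {K : ℕ}
    (hM : M.Lists K) (hL : L.length ≤ K) : (outMach M T L sel).Lists K := by
  intro q
  cases q with
  | run q => exact (List.length_map _).le.trans (hM q)
  | wait t =>
    show (if t = T then L.map emA else []).length ≤ K
    split_ifs
    · rw [List.length_map]; exact hL
    · exact Nat.zero_le _
  | done b => exact Nat.zero_le _

section Sim
variable (M : Machine J P) (T : ℕ) (L : List (J ⊕ M.A)) (sel : M.V → Bool) (x : J → Bool)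

lemma find_run (q : M.Q) (mem : J ⊕ M.A → M.V) (mem' : J ⊕ (M.A ⊕ Unit) → M.V ⊕ Bool)
    (hm : ∀ c, mem' (emA c) = Sum.inl (mem c)) :
    (outMach M T L sel).find (Ot.run q) mem' =
      (M.find q mem).map (fun w => (emA w.1, Sum.inl w.2)) := by
  unfold Machine.find
  have hq : (outMach M T L sel).query (Ot.run q) = (M.query q).map emA := rfl
  rw [hq]
  induction M.query q with
  | nil => rfl
  | cons c l ih =>
    rw [List.map_cons, List.findSome?_cons, List.findSome?_cons]
    have h1 : (outMach M T L sel).test (Ot.run q) (mem' (emA c)) = M.test q (mem c) := by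
      rw [hm]
    by_cases h : M.test q (mem c) = true
    · rw [h1, if_pos h, if_pos h, hm]
      rfl
    · rw [h1, if_neg h, if_neg h]
      exact ih

lemma find_wait (mem : J ⊕ M.A → M.V) (mem' : J ⊕ (M.A ⊕ Unit) → M.V ⊕ Bool)
    (hm : ∀ c, mem' (emA c) = Sum.inl (mem c)) :
    ((outMach M T L sel).find (Ot.wait T) mem').isSome = L.any (fun c => sel (mem c)) := by
  unfold Machine.find
  have hq : (outMach M T L sel).query (Ot.wait T) = L.map emA := if_pos rfl
  rw [hq]
  suffices h : ∀ l : List (J ⊕ M.A), ((l.map emA).findSome? (fun c =>
      if (outMach M T L sel).test (Ot.wait T) (mem' c) = true then some (c, mem' c)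
      else none)).isSome = l.any (fun c => sel (mem c)) from h L
  intro l
  induction l with
  | nil => rfl
  | cons c l ih =>
    rw [List.map_cons, List.findSome?_cons, List.any_cons]
    have h1 : (outMach M T L sel).test (Ot.wait T) (mem' (emA c)) = sel (mem c) := by
      rw [hm]
    cases h : sel (mem c) with
    | true =>
      rw [h1, h, if_pos rfl]
      rfl
    | false =>
      rw [h1, h, Bool.false_or]
      exact ih

lemma next_run (q : M.Q) (o : Option ((J ⊕ M.A) × M.V)) :
    (outMach M T L sel).next (Ot.run q) (o.map (fun w => (emA w.1, Sum.inl w.2))) =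
      Ot.run (M.next q o) := by
  rcases o with _ | ⟨a | a, v⟩ <;> rfl

/-- The simulation up to step `T`. -/
lemma out_sim (t : ℕ) (ht : t ≤ T) :
    (∀ p, ((outMach M T L sel).run x t).1 p =
        Fin.addCases (fun p => Ot.run ((M.run x t).1 p)) (fun _ => Ot.wait t) p) ∧
    ∀ c, ((outMach M T L sel).run x t).2 (emA c) = Sum.inl ((M.run x t).2 c) := by
  induction t with
  | zero =>
    refine ⟨fun p => rfl, fun c => ?_⟩
    rcases c with j | a <;> rfl
  | succ t ih =>
    obtain ⟨hst, hmem⟩ := ih (by omega)
    have htT : t ≠ T := by omega
    have hs : ∀ p, ((outMach M T L sel).run x (t + 1)).1 p =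
        Fin.addCases (fun p => Ot.run ((M.run x (t + 1)).1 p)) (fun _ => Ot.wait (t + 1)) p := by
      intro p
      have h : ((outMach M T L sel).run x (t + 1)).1 p = (outMach M T L sel).next
        (((outMach M T L sel).run x t).1 p)
        ((outMach M T L sel).find (((outMach M T L sel).run x t).1 p)
          ((outMach M T L sel).run x t).2) := rfl
      rw [h, hst]
      refine Fin.addCases (fun p => ?_) (fun p => ?_) p
      · rw [Fin.addCases_left, Fin.addCases_left, find_run M T L sel _ (M.run x t).2 _ hmem,
          next_run]
        rfl
      · rw [Fin.addCases_right, Fin.addCases_right]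
        exact if_neg htT
    refine ⟨hs, ?_⟩
    intro c
    have h : ((outMach M T L sel).run x (t + 1)).2 (emA c) =
      ((List.finRange (P + 1)).findSome?
      (fun p => (outMach M T L sel).wr (emA c) (((outMach M T L sel).run x (t + 1)).1 p))).getD
        (((outMach M T L sel).run x t).2 (emA c)) := rfl
    rw [h, hmem, fs_add]
    have h0 : (List.finRange 1).findSome? (fun p => (outMach M T L sel).wr (emA c)
        (((outMach M T L sel).run x (t + 1)).1 (Fin.natAdd P p))) = none := by
      rw [List.findSome?_eq_none_iff]
      intro p _
      rw [hs, Fin.addCases_right]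
      exact wr_no rfl
    rw [h0, Option.or_none]
    have h1 : ∀ p, (outMach M T L sel).wr (emA c)
        (((outMach M T L sel).run x (t + 1)).1 (Fin.castAdd 1 p)) =
        (M.wr c ((M.run x (t + 1)).1 p)).map Sum.inl := by
      intro p
      rw [hs, Fin.addCases_left]
      cases hw : M.write ((M.run x (t + 1)).1 p) with
      | none =>
        rw [wr_no hw]
        apply wr_no
        show (M.write ((M.run x (t + 1)).1 p)).map _ = none
        rw [hw]
        rfl
      | some w =>
        have hw' : (outMach M T L sel).write (Ot.run ((M.run x (t + 1)).1 p)) =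
            some (emA w.1, Sum.inl w.2) := by
          show (M.write ((M.run x (t + 1)).1 p)).map _ = _
          rw [hw]
          rfl
        by_cases hc : w.1 = c
        · rw [wr_eq hw hc]
          exact wr_eq (M := outMach M T L sel) (w := (emA w.1, Sum.inl w.2)) hw'
            (congrArg emA hc)
        · rw [wr_ne hw hc]
          exact wr_ne (M := outMach M T L sel) (w := (emA w.1, Sum.inl w.2)) hw'
            (fun h => hc (emA_inj h))
    simp only [h1]
    have h2 : (M.run x (t + 1)).2 c = ((List.finRange P).findSome?
      (fun p => M.wr c ((M.run x (t + 1)).1 p))).getD ((M.run x t).2 c) := rfl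
    rw [h2]
    generalize List.finRange P = l
    induction l with
    | nil => rfl
    | cons p l ih =>
      rw [List.findSome?_cons, List.findSome?_cons]
      cases M.wr c ((M.run x (t + 1)).1 p) with
      | none => exact ih
      | some w => rfl

theorem outMach_answer : (outMach M T L sel).answer (T + 1) x =
    L.any (fun c => sel ((M.run x T).2 c)) := by
  obtain ⟨hst, hmem⟩ := out_sim M T L sel x T le_rfl
  have hlast : ((outMach M T L sel).run x (T + 1)).1 (Fin.natAdd P 0) =
      Ot.done (L.any (fun c => sel ((M.run x T).2 c))) := by
    have h : ((outMach M T L sel).run x (T + 1)).1 (Fin.natAdd P 0) = (outMach M T L sel).next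
        (((outMach M T L sel).run x T).1 (Fin.natAdd P 0))
        ((outMach M T L sel).find (((outMach M T L sel).run x T).1 (Fin.natAdd P 0))
          ((outMach M T L sel).run x T).2) := rfl
    rw [h, hst, Fin.addCases_right, ← find_wait M T L sel (M.run x T).2 _ hmem]
    exact if_pos rfl
  have hrest : ∀ p : Fin P, ∃ q, ((outMach M T L sel).run x (T + 1)).1 (Fin.castAdd 1 p) =
      Ot.run q := by
    intro p
    have h : ((outMach M T L sel).run x (T + 1)).1 (Fin.castAdd 1 p) = (outMach M T L sel).next
        (((outMach M T L sel).run x T).1 (Fin.castAdd 1 p))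
        ((outMach M T L sel).find (((outMach M T L sel).run x T).1 (Fin.castAdd 1 p))
          ((outMach M T L sel).run x T).2) := rfl
    rw [h, hst, Fin.addCases_left, find_run M T L sel _ (M.run x T).2 _ hmem, next_run]
    exact ⟨_, rfl⟩
  unfold Machine.answer
  have h : ((outMach M T L sel).run x (T + 1)).2 (Sum.inr (Sum.inr ())) =
      ((List.finRange (P + 1)).findSome?
      (fun p => (outMach M T L sel).wr (Sum.inr (Sum.inr ()))
        (((outMach M T L sel).run x (T + 1)).1 p))).getD
        (((outMach M T L sel).run x T).2 (Sum.inr (Sum.inr ()))) := rfl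
  have h3 : (List.finRange (P + 1)).findSome?
      (fun p => (outMach M T L sel).wr (Sum.inr (Sum.inr ()))
        (((outMach M T L sel).run x (T + 1)).1 p)) =
        some (Sum.inr (L.any (fun c => sel ((M.run x T).2 c)))) := by
    rw [fs_add]
    have h4 : (List.finRange P).findSome? (fun p => (outMach M T L sel).wr (Sum.inr (Sum.inr ()))
        (((outMach M T L sel).run x (T + 1)).1 (Fin.castAdd 1 p))) = none := by
      rw [List.findSome?_eq_none_iff]
      intro p _
      obtain ⟨q, hq⟩ := hrest p
      rw [hq]
      cases hw : M.write q with
      | none =>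
        apply wr_no
        show (M.write q).map _ = none
        rw [hw]
        rfl
      | some w =>
        apply wr_ne (w := (emA w.1, Sum.inl w.2))
        · show (M.write q).map _ = _
          rw [hw]
          rfl
        · intro h
          rcases w with ⟨a | a, v⟩ <;> cases h
    rw [h4, Option.none_or]
    show (([(0 : Fin 1)] : List (Fin 1))).findSome? _ = _
    rw [List.findSome?_cons]
    rw [hlast]
    rw [wr_eq (M := outMach M T L sel) (c := Sum.inr (Sum.inr ()))
      (w := (Sum.inr (Sum.inr ()), Sum.inr (L.any (fun c => sel ((M.run x T).2 c))))) rfl rfl]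
  show (outMach M T L sel).accept (((outMach M T L sel).run x (T + 1)).2 (Sum.inr (Sum.inr ()))) = _
  rw [h, h3]
  rfl

end Sim

end Pool.Agent.W980.GR
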