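import Mathlib
import Pool.Agent.W980.GR.Main
import Pool.Agent.W980.GC.Asym

/-!
Parallel machines with few output bits lose the information about cliques.
-/

set_option linter.unusedSectionVars false

namespace Pool.Agent.W980.GR

open Finset DomAC0 Filter Topology Pool.Agent.H72.Clq Pool.Agent.W980.GC
open Pool.Agent.W964.Pram hiding push push_sum push_total push_nonneg push_ne

open Classical in
/-- A union bound over the output bits. -/
lemma output_differ {Λ I J : Type} [Fintype Λ] [Fintype I] {P K : ℕ} (T : ℕ) (μ : Λ → ℝ)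
    (hμ : ∀ l, 0 ≤ μ l) (x y : Λ → (J → Bool)) (ε : ℝ)
    (h : ∀ M : Machine J (P + 1), M.Lists K →
      ∑ l, μ l * (if M.answer (T + 1) (x l) ≠ M.answer (T + 1) (y l) then 1 else 0) ≤ ε)
    (R : OutMachine J P I) (hR : R.Lists K) :
    ∑ l, μ l * (if R.output T (x l) ≠ R.output T (y l) then 1 else 0) ≤
      (Fintype.card I : ℝ) * ε := by
  have h1 : ∀ l, μ l * (if R.output T (x l) ≠ R.output T (y l) then (1 : ℝ) else 0) ≤
      ∑ i : I, μ l * (if (outMach R.M T (R.L i) (R.sel i)).answer (T + 1) (x l) ≠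
        (outMach R.M T (R.L i) (R.sel i)).answer (T + 1) (y l) then (1 : ℝ) else 0) := by
    intro l
    rw [← Finset.mul_sum]
    apply mul_le_mul_of_nonneg_left _ (hμ l)
    split_ifs with hne
    · obtain ⟨i, hi⟩ := Function.ne_iff.1 hne
      have h2 : (1 : ℝ) = (if (outMach R.M T (R.L i) (R.sel i)).answer (T + 1) (x l) ≠
        (outMach R.M T (R.L i) (R.sel i)).answer (T + 1) (y l) then (1 : ℝ) else 0) := by
        rw [if_pos]
        rw [outMach_answer, outMach_answer]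
        exact hi
      refine h2.le.trans ?_
      exact Finset.single_le_sum (f := fun i => if (outMach R.M T (R.L i) (R.sel i)).answer (T + 1)
        (x l) ≠ (outMach R.M T (R.L i) (R.sel i)).answer (T + 1) (y l) then (1 : ℝ) else 0)
        (fun j _ => by split_ifs <;> norm_num) (Finset.mem_univ i)
    · exact Finset.sum_nonneg fun j _ => by split_ifs <;> norm_num
  calc ∑ l, μ l * (if R.output T (x l) ≠ R.output T (y l) then (1 : ℝ) else 0)
      ≤ ∑ l, ∑ i : I, μ l * (if (outMach R.M T (R.L i) (R.sel i)).answer (T + 1) (x l) ≠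
        (outMach R.M T (R.L i) (R.sel i)).answer (T + 1) (y l) then (1 : ℝ) else 0) :=
        Finset.sum_le_sum fun l _ => h1 l
    _ = ∑ i : I, ∑ l, μ l * (if (outMach R.M T (R.L i) (R.sel i)).answer (T + 1) (x l) ≠
        (outMach R.M T (R.L i) (R.sel i)).answer (T + 1) (y l) then (1 : ℝ) else 0) :=
        Finset.sum_comm
    _ ≤ ∑ _i : I, ε := Finset.sum_le_sum fun i _ =>
        h _ (outMach_lists R.M T (R.L i) (R.sel i) hR.1 (hR.2 i))
    _ = (Fintype.card I : ℝ) * ε := by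
        rw [Finset.sum_const, Finset.card_univ, nsmul_eq_mul]

open Classical in
/-- The probability of the answer `b`. -/
noncomputable def prAns {Ω I J : Type} [Fintype Ω] {P : ℕ} (w : Ω → ℝ)
    (R : Ω → OutMachine J P I) (dec : Ω → (I → Bool) → Bool) (T : ℕ) (x : J → Bool) (b : Bool) :
    ℝ :=
  ∑ r, if dec r ((R r).output T x) = b then w r else 0

lemma prAns_le {Ω I J : Type} [Fintype Ω] {P : ℕ} (w : Ω → ℝ) (hw : ∀ r, 0 ≤ w r)
    (hw1 : ∑ r, w r = 1) (R : Ω → OutMachine J P I) (dec : Ω → (I → Bool) → Bool) (T : ℕ)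
    (x : J → Bool) (b : Bool) : prAns w R dec T x b ≤ 1 := by
  rw [← hw1]
  refine Finset.sum_le_sum fun r _ => ?_
  split_ifs
  · exact le_rfl
  · exact hw r

open Classical in
/-- Two inputs. -/
lemma prAns_add {Ω I J : Type} [Fintype Ω] {P : ℕ} (w : Ω → ℝ) (hw : ∀ r, 0 ≤ w r)
    (hw1 : ∑ r, w r = 1) (R : Ω → OutMachine J P I) (dec : Ω → (I → Bool) → Bool) (T : ℕ)
    (x y : J → Bool) :
    prAns w R dec T y true + prAns w R dec T x false ≤
      1 + ∑ r, w r * (if (R r).output T x ≠ (R r).output T y then 1 else 0) := by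
  unfold prAns
  rw [← Finset.sum_add_distrib]
  nth_rewrite 1 [← hw1]
  rw [← Finset.sum_add_distrib]
  refine Finset.sum_le_sum fun r _ => ?_
  have h0 := hw r
  by_cases h : (R r).output T x = (R r).output T y
  · rw [if_neg (not_not.2 h), h]
    cases dec r ((R r).output T y) with
    | true => simp
    | false => simp
  · rw [if_pos h]
    split_ifs <;> linarith

open Classical in
theorem coupled_red {Λ X I J : Type} [Fintype Λ] {P : ℕ} (T : ℕ) (μ : Λ → ℝ)
    (hμ : ∀ l, 0 ≤ μ l) (hμ1 : ∑ l, μ l = 1) (enc : X → (J → Bool)) (x y : Λ → X) (ε γ : ℝ)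
    (Y Z : X → Prop) (hY : ∀ l, Y (y l))
    (hZ : ∑ l, μ l * (if Z (x l) then 0 else 1) ≤ γ)
    (Ω : Type) [Fintype Ω] (w : Ω → ℝ) (hw : ∀ r, 0 ≤ w r) (hw1 : ∑ r, w r = 1)
    (R : Ω → OutMachine J P I) (dec : Ω → (I → Bool) → Bool)
    (h : ∀ r, ∑ l, μ l * (if (R r).output T (enc (x l)) ≠ (R r).output T (enc (y l))
      then 1 else 0) ≤ ε) (η : ℝ) (hη : ε + γ ≤ 2 * η) :
    ∃ z, (Y z ∧ prAns w R dec T (enc z) true ≤ 1 / 2 + η) ∨
      (Z z ∧ prAns w R dec T (enc z) false ≤ 1 / 2 + η) := by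
  have hne : ∃ l, μ l ≠ 0 := by
    by_contra hc
    push Not at hc
    simp only [hc, Finset.sum_const_zero] at hμ1
    exact zero_ne_one hμ1
  obtain ⟨l₀, hl₀⟩ := hne
  by_cases hbig : 1 / 2 ≤ η
  · exact ⟨y l₀, Or.inl ⟨hY l₀, (prAns_le w hw hw1 R dec T _ _).trans (by linarith)⟩⟩
  by_contra hcon
  push Not at hcon
  have h1 : ∀ l, μ l * (1 / 2 + η) + μ l * (1 / 2 + η - (if Z (x l) then 0 else 1)) ≤
      μ l * (prAns w R dec T (enc (y l)) true + prAns w R dec T (enc (x l)) false) := by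
    intro l
    rw [← mul_add]
    apply mul_le_mul_of_nonneg_left _ (hμ l)
    have h2 := (hcon (y l)).1 (hY l)
    by_cases hz : Z (x l)
    · rw [if_pos hz]
      have := (hcon (x l)).2 hz
      linarith
    · rw [if_neg hz]
      have : 0 ≤ prAns w R dec T (enc (x l)) false :=
        Finset.sum_nonneg fun r _ => by
          split_ifs
          · exact hw r
          · exact le_rfl
      linarith
  have h1' : μ l₀ * (1 / 2 + η) + μ l₀ * (1 / 2 + η - (if Z (x l₀) then 0 else 1)) <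
      μ l₀ * (prAns w R dec T (enc (y l₀)) true + prAns w R dec T (enc (x l₀)) false) := by
    rw [← mul_add]
    apply mul_lt_mul_of_pos_left _ (lt_of_le_of_ne (hμ l₀) (Ne.symm hl₀))
    have h2 := (hcon (y l₀)).1 (hY l₀)
    by_cases hz : Z (x l₀)
    · rw [if_pos hz]
      have := (hcon (x l₀)).2 hz
      linarith
    · rw [if_neg hz]
      have : 0 ≤ prAns w R dec T (enc (x l₀)) false :=
        Finset.sum_nonneg fun r _ => by
          split_ifs
          · exact hw r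
          · exact le_rfl
      linarith
  have h3 : ∑ l, (μ l * (1 / 2 + η) + μ l * (1 / 2 + η - (if Z (x l) then 0 else 1))) <
      ∑ l, μ l * (prAns w R dec T (enc (y l)) true + prAns w R dec T (enc (x l)) false) :=
    Finset.sum_lt_sum (fun l _ => h1 l) ⟨l₀, Finset.mem_univ _, h1'⟩
  have h4 : ∑ l, (μ l * (1 / 2 + η) + μ l * (1 / 2 + η - (if Z (x l) then 0 else 1))) =
      1 + 2 * η - ∑ l, μ l * (if Z (x l) then 0 else 1) := by
    have : ∀ l, μ l * (1 / 2 + η) + μ l * (1 / 2 + η - (if Z (x l) then 0 else 1)) =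
        μ l * (1 + 2 * η) - μ l * (if Z (x l) then 0 else 1) := fun l => by ring
    rw [Finset.sum_congr rfl fun l _ => this l, Finset.sum_sub_distrib, ← Finset.sum_mul, hμ1,
      one_mul]
  have h5 : ∑ l, μ l * (prAns w R dec T (enc (y l)) true + prAns w R dec T (enc (x l)) false) ≤
      1 + ε := by
    calc ∑ l, μ l * (prAns w R dec T (enc (y l)) true + prAns w R dec T (enc (x l)) false)
        ≤ ∑ l, μ l * (1 + ∑ r, w r * (if (R r).output T (enc (x l)) ≠
          (R r).output T (enc (y l)) then 1 else 0)) :=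
          Finset.sum_le_sum fun l _ => mul_le_mul_of_nonneg_left
            (prAns_add w hw hw1 R dec T _ _) (hμ l)
      _ = 1 + ∑ r, w r * ∑ l, μ l * (if (R r).output T (enc (x l)) ≠
          (R r).output T (enc (y l)) then 1 else 0) := by
          simp_rw [mul_add, Finset.sum_add_distrib, mul_one, hμ1, Finset.mul_sum]
          rw [Finset.sum_comm]
          congr 1
          refine Finset.sum_congr rfl fun r _ => Finset.sum_congr rfl fun l _ => by ring
      _ ≤ 1 + ∑ r, w r * ε := by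
          have : ∑ r, w r * ∑ l, μ l * (if (R r).output T (enc (x l)) ≠
            (R r).output T (enc (y l)) then 1 else 0) ≤ ∑ r, w r * ε :=
            Finset.sum_le_sum fun r _ => mul_le_mul_of_nonneg_left (h r) (hw r)
          linarith
      _ = 1 + ε := by rw [← Finset.sum_mul, hw1, one_mul]
  linarith

open Classical in
/-- Few output bits. -/
theorem gap_output (δ : ℝ) (hδ : 0 < δ) : ∃ C : ℕ, 1 ≤ C ∧
    ∀ T k n : ℕ, 1 ≤ T → C ≤ k → (C * T * k) ^ (C * T) ≤ n →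
      ∃ (Λ : Type) (_ : Fintype Λ) (μ : Λ → ℝ) (G₀ G₁ : Λ → SimpleGraph (Fin n)),
        (∀ l, 0 ≤ μ l) ∧ ∑ l, μ l = 1 ∧ (∀ l, ¬ (G₁ l).CliqueFree k) ∧
        (∑ l, μ l * (if CliquesLe (δ * k) (G₀ l) then 0 else 1)) ≤ (n : ℝ) ^ (-((k : ℝ) / C)) ∧
        ∀ P K : ℕ, (P : ℝ) ≤ (n : ℝ) ^ ((k : ℝ) / C) → (K : ℝ) ≤ (n : ℝ) ^ ((k : ℝ) / C) →
          ∀ (I : Type) [Fintype I],
          (∀ R : OutMachine (Pairs n) P I, R.Lists K →
            ∑ l, μ l * (if R.output T (adjBits (G₀ l)) ≠ R.output T (adjBits (G₁ l))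
              then 1 else 0) ≤ (Fintype.card I : ℝ) * (n : ℝ) ^ (-(1 / (C : ℝ)))) ∧
          ∀ (Ω : Type) [Fintype Ω] (w : Ω → ℝ), (∀ r, 0 ≤ w r) → ∑ r, w r = 1 →
            ∀ (R : Ω → OutMachine (Pairs n) P I) (dec : Ω → (I → Bool) → Bool),
            (∀ r, (R r).Lists K) → ∃ G : SimpleGraph (Fin n),
              (¬ G.CliqueFree k ∧ prAns w R dec T (adjBits G) true ≤
                1 / 2 + ((Fintype.card I : ℝ) + 1) * (n : ℝ) ^ (-(1 / (C : ℝ)))) ∨
              (CliquesLe (δ * k) G ∧ prAns w R dec T (adjBits G) false ≤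
                1 / 2 + ((Fintype.card I : ℝ) + 1) * (n : ℝ) ^ (-(1 / (C : ℝ)))) := by
  obtain ⟨C₁, hC₁, H⟩ := gap_coupled δ hδ
  obtain ⟨C, hC⟩ : ∃ C : ℕ, C = 2 * C₁ := ⟨_, rfl⟩
  have hC1 : 1 ≤ C := by omega
  have hCR : (1 : ℝ) ≤ C := by exact_mod_cast hC1
  have hC0 : (0 : ℝ) < C := by linarith
  have hC₁R : (0 : ℝ) < C₁ := by exact_mod_cast (by omega : 0 < C₁)
  have hCC : (C : ℝ) = 2 * C₁ := by rw [hC]; push_cast; ring
  refine ⟨C, hC1, ?_⟩
  intro T k n hT hk hn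
  have hbase : 2 ≤ C * T * k := by
    calc 2 ≤ C := by omega
      _ ≤ C * T := Nat.le_mul_of_pos_right _ (by omega)
      _ ≤ C * T * k := Nat.le_mul_of_pos_right _ (by omega)
  have hn2 : 2 ≤ n := by
    refine le_trans hbase (le_trans (Nat.le_self_pow ?_ _) hn)
    have : 0 < C * T := Nat.mul_pos (by omega) (by omega)
    omega
  have hnR : (2 : ℝ) ≤ n := by exact_mod_cast hn2
  have hn0 : (0 : ℝ) < n := by linarith
  have hn1 : (1 : ℝ) ≤ n := by linarith
  have hkC : (C : ℝ) ≤ k := by exact_mod_cast hk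
  have hk0 : (0 : ℝ) < k := by linarith
  obtain ⟨Λ, hΛ, μ, G₀, G₁, p0, p1, hsat, hgap, hadv⟩ := H (T + 1) k n (by omega) (by omega) (by
    refine le_trans ?_ hn
    have h1 : C₁ * (T + 1) ≤ C * T := by
      rw [hC]
      calc C₁ * (T + 1) ≤ C₁ * (2 * T) := Nat.mul_le_mul_left _ (by omega)
        _ = 2 * C₁ * T := by ring
    calc (C₁ * (T + 1) * k) ^ (C₁ * (T + 1)) ≤ (C * T * k) ^ (C₁ * (T + 1)) :=
          Nat.pow_le_pow_left (Nat.mul_le_mul_right _ h1) _
      _ ≤ (C * T * k) ^ (C * T) := Nat.pow_le_pow_right (by omega) h1)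
  have hone : (n : ℝ) ^ (-(1 / (C₁ : ℝ))) ≤ (n : ℝ) ^ (-(1 / (C : ℝ))) := by
    apply Real.rpow_le_rpow_of_exponent_le hn1
    apply neg_le_neg
    rw [hCC]
    apply one_div_le_one_div_of_le hC₁R
    linarith
  have hgap' : (n : ℝ) ^ (-((k : ℝ) / C₁)) ≤ (n : ℝ) ^ (-((k : ℝ) / C)) := by
    apply Real.rpow_le_rpow_of_exponent_le hn1
    apply neg_le_neg
    rw [hCC]
    apply div_le_div_of_nonneg_left hk0.le hC₁R
    linarith
  have hhalf : (n : ℝ) ^ (-((k : ℝ) / C)) ≤ (n : ℝ) ^ (-(1 / (C : ℝ))) := by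
    apply Real.rpow_le_rpow_of_exponent_le hn1
    apply neg_le_neg
    exact div_le_div_of_nonneg_right (by linarith) hC0.le
  have hge2 : (2 : ℝ) ≤ (n : ℝ) ^ ((k : ℝ) / C) := by
    calc (2 : ℝ) ≤ n := hnR
      _ = (n : ℝ) ^ (1 : ℝ) := (Real.rpow_one _).symm
      _ ≤ (n : ℝ) ^ ((k : ℝ) / C) := by
          apply Real.rpow_le_rpow_of_exponent_le hn1
          rw [le_div_iff₀ hC0]
          linarith
  have hsq : (n : ℝ) ^ ((k : ℝ) / C) * (n : ℝ) ^ ((k : ℝ) / C) = (n : ℝ) ^ ((k : ℝ) / C₁) := by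
    rw [← Real.rpow_add hn0]
    congr 1
    rw [hCC]
    field_simp
    ring
  refine ⟨Λ, hΛ, μ, G₀, G₁, p0, p1, hsat, hgap.trans hgap', ?_⟩
  intro P K hP hK I _
  have hP1 : ((P + 1 : ℕ) : ℝ) ≤ (n : ℝ) ^ ((k : ℝ) / C₁) := by
    push_cast
    rw [← hsq]
    nlinarith
  have hK1 : (K : ℝ) ≤ (n : ℝ) ^ ((k : ℝ) / C₁) := by
    rw [← hsq]
    nlinarith
  have hout : ∀ R : OutMachine (Pairs n) P I, R.Lists K →
      ∑ l, μ l * (if R.output T (adjBits (G₀ l)) ≠ R.output T (adjBits (G₁ l))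
        then (1 : ℝ) else 0) ≤ (Fintype.card I : ℝ) * (n : ℝ) ^ (-(1 / (C : ℝ))) := by
    intro R hR
    refine (output_differ T μ p0 (fun l => adjBits (G₀ l)) (fun l => adjBits (G₁ l))
      ((n : ℝ) ^ (-(1 / (C₁ : ℝ)))) (fun M hM => hadv (P + 1) K hP1 hK1 M hM) R hR).trans ?_
    exact mul_le_mul_of_nonneg_left hone (Nat.cast_nonneg _)
  refine ⟨hout, ?_⟩
  intro Ω _ w hw hw1 R dec hR
  have hpos : (0 : ℝ) ≤ (n : ℝ) ^ (-(1 / (C : ℝ))) := by positivity
  have hcI : (0 : ℝ) ≤ (Fintype.card I : ℝ) := Nat.cast_nonneg _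
  refine coupled_red T μ p0 p1 adjBits G₀ G₁ ((Fintype.card I : ℝ) * (n : ℝ) ^ (-(1 / (C : ℝ))))
    ((n : ℝ) ^ (-(1 / (C : ℝ)))) (fun G => ¬ G.CliqueFree k)
    (CliquesLe (δ * k)) hsat (hgap.trans (hgap'.trans hhalf)) Ω w hw hw1 R dec
    (fun r => by convert hout (R r) (hR r)) _ ?_
  nlinarith [mul_nonneg hcI hpos]

end Pool.Agent.W980.GR
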