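import Mathlib
import Pool.Agent.W980.GR.Red

/-!
Parallel reductions of the clique problem to the satisfiability of short formulas.
-/

set_option linter.unusedSectionVars false

namespace Pool.Agent.W980.GR

open Finset DomAC0 Filter Topology Pool.Agent.H72.Clq Pool.Agent.W980.GC
open Pool.Agent.W964.Pram hiding push push_sum push_total push_nonneg push_ne

/-- The possible clauses with at most `d` literals over `v` variables. The pair `(i, true)` is the
literal `X_i`, the pair `(i, false)` is the literal `¬ X_i`. -/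
abbrev Clause (v d : ℕ) : Type := {c : Finset (Fin v × Bool) // c.card ≤ d}

/-- A formula in `Γ_{1,d}` over `v` variables, given by one bit for each possible clause: the
formula consists of the clauses `c` with `φ c = true`. It is satisfiable if some assignment makes a
literal of each of its clauses true. -/
def Sat {v d : ℕ} (φ : Clause v d → Bool) : Prop :=
  ∃ a : Fin v → Bool, ∀ c : Clause v d, φ c = true → ∃ l ∈ c.1, a l.1 = l.2

theorem card_clause (v d : ℕ) : Fintype.card (Clause v d) ≤ (2 * v + 1) ^ d := by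
  classical
  let F : (Fin d → Option (Fin v × Bool)) → Clause v d := fun f =>
    ⟨(univ.image f).eraseNone, by
      calc (univ.image f).eraseNone.card ≤ (univ.image f).card := by
            exact Finset.card_eraseNone_le _
        _ ≤ (univ : Finset (Fin d)).card := Finset.card_image_le
        _ = d := by simp⟩
  have hF : Function.Surjective F := by
    rintro ⟨c, hc⟩
    have hle : c.card ≤ d := hc
    let e := c.equivFin
    refine ⟨fun i => if h : i.val < c.card then some (e.symm ⟨i.val, h⟩).1 else none, ?_⟩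
    apply Subtype.ext
    ext l
    simp only [F, Finset.mem_eraseNone, mem_image, mem_univ, true_and]
    constructor
    · rintro ⟨i, hi⟩
      split_ifs at hi with h
      have := Option.some.inj hi
      rw [← this]
      exact (e.symm ⟨i.val, h⟩).2
    · intro hl
      refine ⟨⟨(e ⟨l, hl⟩).val, lt_of_lt_of_le (e ⟨l, hl⟩).2 hle⟩, ?_⟩
      have h : (e ⟨l, hl⟩).val < c.card := (e ⟨l, hl⟩).2
      rw [dif_pos h]
      have h2 : e.symm ⟨(e ⟨l, hl⟩).val, h⟩ = ⟨l, hl⟩ := by
        have : (⟨(e ⟨l, hl⟩).val, h⟩ : Fin c.card) = e ⟨l, hl⟩ := rfl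
        rw [this, Equiv.symm_apply_apply]
      rw [h2]
  calc Fintype.card (Clause v d) ≤ Fintype.card (Fin d → Option (Fin v × Bool)) :=
        Fintype.card_le_of_surjective F hF
    _ = (2 * v + 1) ^ d := by
        rw [Fintype.card_fun, Fintype.card_option, Fintype.card_prod, Fintype.card_fin,
          Fintype.card_bool, Fintype.card_fin, Nat.mul_comm v 2]

/-- The number of clauses is small. -/
lemma ev_bits (F g c d : ℕ) (β : ℝ) (hβ : 0 < β) : ∀ᶠ n : ℕ in atTop, ∀ v : ℕ,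
    v ≤ g * (Nat.log 2 (F * n ^ c) + 1) → (((2 * v + 1) ^ d + 1 : ℕ) : ℝ) ≤ (n : ℝ) ^ β := by
  have hlog : Tendsto (fun n : ℕ => Real.log n) atTop atTop :=
    Real.tendsto_log_atTop.comp tendsto_natCast_atTop_atTop
  have ho : ∀ᶠ n : ℕ in atTop, Real.log n ^ ((d + 1 : ℕ) : ℝ) ≤ (n : ℝ) ^ β := by
    have h1 := (isLittleO_log_rpow_rpow_atTop ((d + 1 : ℕ) : ℝ) hβ).bound (zero_lt_one)
    have h2 := tendsto_natCast_atTop_atTop (R := ℝ) |>.eventually h1
    filter_upwards [h2, hlog.eventually_ge_atTop 0, eventually_ge_atTop 1] with n h3 h4 h5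
    rw [one_mul, Real.norm_eq_abs, Real.norm_eq_abs, abs_of_nonneg (by positivity),
      abs_of_nonneg (by positivity)] at h3
    exact h3
  obtain ⟨B', hB'⟩ : ∃ B' : ℝ, B' = 2 * Real.log (F + 1) + 2 * c + 1 := ⟨_, rfl⟩
  obtain ⟨B, hB⟩ : ∃ B : ℝ, B = 2 * g * B' + 1 := ⟨_, rfl⟩
  have hF0 : 0 ≤ Real.log ((F : ℝ) + 1) := Real.log_nonneg (by
    have : (0 : ℝ) ≤ F := Nat.cast_nonneg _
    linarith)
  have hB'0 : 0 ≤ B' := by rw [hB']; positivity
  have hB0 : 0 ≤ B := by rw [hB]; positivity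
  filter_upwards [ho, hlog.eventually_ge_atTop 1, hlog.eventually_ge_atTop (B ^ d + 1),
    eventually_ge_atTop 1] with n h1 h2 h3 hn1
  intro v hv
  have hn0 : (0 : ℝ) < n := by exact_mod_cast hn1
  have hl0 : (0 : ℝ) ≤ Real.log n := by linarith
  have hlogx : (Nat.log 2 (F * n ^ c) : ℝ) + 1 ≤ B' * Real.log n := by
    have h4 : (Nat.log 2 (F * n ^ c) : ℝ) ≤ 2 * (Real.log (F + 1) + c * Real.log n) := by
      by_cases hz : F * n ^ c = 0
      · rw [hz, Nat.log_zero_right]
        push_cast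
        positivity
      · have h5 : ((2 : ℝ) ^ (Nat.log 2 (F * n ^ c))) ≤ ((F : ℝ) + 1) * (n : ℝ) ^ c := by
          have h6 : 2 ^ (Nat.log 2 (F * n ^ c)) ≤ F * n ^ c := Nat.pow_log_le_self 2 hz
          have h7 : ((2 ^ (Nat.log 2 (F * n ^ c)) : ℕ) : ℝ) ≤ ((F * n ^ c : ℕ) : ℝ) := by
            exact_mod_cast h6
          push_cast at h7
          have h8 : (0 : ℝ) ≤ (n : ℝ) ^ c := by positivity
          nlinarith
        have h9 := Real.log_le_log (by positivity) h5
        rw [Real.log_pow, Real.log_mul (by positivity) (by positivity), Real.log_pow] at h9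
        have h10 : (1 : ℝ) / 2 ≤ Real.log 2 := by
          have := Real.log_two_gt_d9
          linarith
        have h11 : (Nat.log 2 (F * n ^ c) : ℝ) * (1 / 2) ≤
            (Nat.log 2 (F * n ^ c) : ℝ) * Real.log 2 :=
          mul_le_mul_of_nonneg_left h10 (Nat.cast_nonneg _)
        linarith
    rw [hB']
    nlinarith
  have hv' : (v : ℝ) ≤ g * (B' * Real.log n) := by
    have h4 : (v : ℝ) ≤ g * ((Nat.log 2 (F * n ^ c) : ℝ) + 1) := by exact_mod_cast hv
    exact h4.trans (mul_le_mul_of_nonneg_left hlogx (Nat.cast_nonneg _))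
  have h2v : (2 * v + 1 : ℝ) ≤ B * Real.log n := by
    rw [hB]
    nlinarith
  have h5 : ((2 * v + 1 : ℝ)) ^ d ≤ B ^ d * Real.log n ^ d := by
    rw [← mul_pow]
    exact pow_le_pow_left₀ (by positivity) h2v d
  have h6 : (1 : ℝ) ≤ Real.log n ^ d := one_le_pow₀ h2
  push_cast
  calc (2 * (v : ℝ) + 1) ^ d + 1 ≤ B ^ d * Real.log n ^ d + Real.log n ^ d := by linarith
    _ = (B ^ d + 1) * Real.log n ^ d := by ring
    _ ≤ Real.log n * Real.log n ^ d := mul_le_mul_of_nonneg_right h3 (by positivity)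
    _ = Real.log n ^ ((d + 1 : ℕ) : ℝ) := by rw [Real.rpow_natCast, pow_succ']
    _ ≤ (n : ℝ) ^ β := h1

open Classical in
/-- The evaluation of `q` formulas. -/
noncomputable def evalSat {v d q : ℕ} (ev : (Fin q → Bool) → Bool)
    (φ : Fin q × Clause v d → Bool) : Bool :=
  ev fun i => decide (Sat fun c => φ (i, c))

open Classical in
theorem m1_red (δ : ℝ) (hδ : 0 < δ) : ∃ α : ℝ, 0 < α ∧
    ∀ (d c : ℕ) (f g : ℕ → ℕ) (T : ℕ → ℕ → ℕ), (∀ k n, 1 ≤ T k n) →
      (∀ k, Tendsto (fun n : ℕ => (T k n : ℝ) * Real.log (Real.log n) / Real.log n)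
        atTop (𝓝 0)) →
      ∀ᶠ k : ℕ in atTop, ∀ᶠ n : ℕ in atTop, ∀ P K v q : ℕ,
        P ≤ f k * n ^ c → K ≤ f k * n ^ c → v ≤ g k * (Nat.log 2 (f k * n ^ c) + 1) →
        (q : ℝ) ≤ (n : ℝ) ^ α →
        ∀ (Ω : Type) [Fintype Ω] (w : Ω → ℝ), (∀ r, 0 ≤ w r) → ∑ r, w r = 1 →
          ∀ (R : Ω → OutMachine (Pairs n) P (Fin q × Clause v d))
            (ev : Ω → (Fin q → Bool) → Bool), (∀ r, (R r).Lists K) →
            ∃ G : SimpleGraph (Fin n),
              (¬ G.CliqueFree k ∧ prAns w R (fun r => evalSat (ev r)) (T k n) (adjBits G) true ≤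
                1 / 2 + (n : ℝ) ^ (-α)) ∨
              (CliquesLe (δ * k) G ∧
                prAns w R (fun r => evalSat (ev r)) (T k n) (adjBits G) false ≤
                1 / 2 + (n : ℝ) ^ (-α)) := by
  obtain ⟨C, hC1, H⟩ := gap_output δ hδ
  have hCR : (1 : ℝ) ≤ C := by exact_mod_cast hC1
  have hC0 : (0 : ℝ) < C := by linarith
  refine ⟨1 / (4 * C), by positivity, ?_⟩
  intro d c f g T hT1 hT
  filter_upwards [eventually_ge_atTop (C + 2 * C * c + 2 * C)] with k hk
  have hkC : C ≤ k := by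
    have : 0 ≤ 2 * C * c := Nat.zero_le _
    omega
  have hkR : (2 * C * c + 2 * C : ℝ) ≤ k := by
    have : 2 * C * c + 2 * C ≤ k := by omega
    exact_mod_cast this
  have hpw : Tendsto (fun n : ℕ => (n : ℝ) ^ (1 : ℝ)) atTop atTop :=
    (tendsto_rpow_atTop (by positivity)).comp tendsto_natCast_atTop_atTop
  filter_upwards [ev_time C k hC1 (T k) (hT k), hpw.eventually_ge_atTop (f k : ℝ),
    ev_bits (f k) (g k) c d (1 / (2 * C)) (by positivity), eventually_ge_atTop 1]
    with n hn hf hb hn1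
  have hnR : (1 : ℝ) ≤ n := by exact_mod_cast hn1
  have hn0 : (0 : ℝ) < n := by linarith
  have hbd : ((f k * n ^ c : ℕ) : ℝ) ≤ (n : ℝ) ^ ((k : ℝ) / C) := by
    push_cast
    calc (f k : ℝ) * (n : ℝ) ^ c ≤ (n : ℝ) ^ (1 : ℝ) * (n : ℝ) ^ (c : ℝ) := by
          rw [Real.rpow_natCast]
          exact mul_le_mul_of_nonneg_right hf (by positivity)
      _ = (n : ℝ) ^ (1 + (c : ℝ)) := by rw [← Real.rpow_add hn0]
      _ ≤ (n : ℝ) ^ ((k : ℝ) / C) := by
          apply Real.rpow_le_rpow_of_exponent_le hnR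
          rw [le_div_iff₀ hC0]
          have : (0 : ℝ) ≤ C * c := by positivity
          nlinarith
  intro P K v q hP hK hv hq Ω _ w hw hw1 R ev hR
  obtain ⟨Λ, hΛ, μ, G₀, G₁, _, _, _, _, h⟩ := H (T k n) k n (hT1 k n) hkC hn
  have hPR : (P : ℝ) ≤ (n : ℝ) ^ ((k : ℝ) / C) := by
    refine le_trans ?_ hbd
    exact_mod_cast hP
  have hKR : (K : ℝ) ≤ (n : ℝ) ^ ((k : ℝ) / C) := by
    refine le_trans ?_ hbd
    exact_mod_cast hK
  obtain ⟨G, hG⟩ := (h P K hPR hKR (Fin q × Clause v d)).2 Ω w hw hw1 R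
    (fun r => evalSat (ev r)) hR
  have hI : ((Fintype.card (Fin q × Clause v d) : ℝ) + 1) * (n : ℝ) ^ (-(1 / (C : ℝ))) ≤
      (n : ℝ) ^ (-(1 / (4 * (C : ℝ)))) := by
    have h1 : (Fintype.card (Fin q × Clause v d) : ℝ) + 1 ≤
        (n : ℝ) ^ (3 / (4 * (C : ℝ))) := by
      have h2 : (Fintype.card (Fin q × Clause v d) : ℝ) ≤ q * ((2 * v + 1) ^ d : ℕ) := by
        rw [Fintype.card_prod, Fintype.card_fin]
        have := Nat.mul_le_mul_left q (card_clause v d)
        exact_mod_cast this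
      have h3 := hb v hv
      have h4 : (1 : ℝ) ≤ (n : ℝ) ^ (1 / (4 * (C : ℝ))) := Real.one_le_rpow hnR (by positivity)
      have h5 : ((2 * v + 1) ^ d : ℕ) + (1 : ℝ) ≤ (n : ℝ) ^ (1 / (2 * (C : ℝ))) := by
        exact_mod_cast h3
      have h6 : (0 : ℝ) ≤ (((2 * v + 1) ^ d : ℕ) : ℝ) := Nat.cast_nonneg _
      calc (Fintype.card (Fin q × Clause v d) : ℝ) + 1 ≤ q * ((2 * v + 1) ^ d : ℕ) + 1 := by
            linarith
        _ ≤ (n : ℝ) ^ (1 / (4 * (C : ℝ))) * ((2 * v + 1) ^ d : ℕ) +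
            (n : ℝ) ^ (1 / (4 * (C : ℝ))) * 1 := by
            have := mul_le_mul_of_nonneg_right hq h6
            linarith
        _ = (n : ℝ) ^ (1 / (4 * (C : ℝ))) * (((2 * v + 1) ^ d : ℕ) + 1) := by ring
        _ ≤ (n : ℝ) ^ (1 / (4 * (C : ℝ))) * (n : ℝ) ^ (1 / (2 * (C : ℝ))) :=
            mul_le_mul_of_nonneg_left h5 (by positivity)
        _ = (n : ℝ) ^ (3 / (4 * (C : ℝ))) := by
            rw [← Real.rpow_add hn0]
            congr 1
            field_simp
            ring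
    calc ((Fintype.card (Fin q × Clause v d) : ℝ) + 1) * (n : ℝ) ^ (-(1 / (C : ℝ)))
        ≤ (n : ℝ) ^ (3 / (4 * (C : ℝ))) * (n : ℝ) ^ (-(1 / (C : ℝ))) :=
          mul_le_mul_of_nonneg_right h1 (by positivity)
      _ = (n : ℝ) ^ (-(1 / (4 * (C : ℝ)))) := by
          rw [← Real.rpow_add hn0]
          congr 1
          field_simp
          ring
  refine ⟨G, ?_⟩
  rcases hG with ⟨h2, h3⟩ | ⟨h2, h3⟩
  · exact Or.inl ⟨h2, by linarith⟩
  · exact Or.inr ⟨h2, by linarith⟩

open Classical in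
/-- There are no many-one reductions. -/
theorem no_many_one (d c : ℕ) (f g : ℕ → ℕ) (T : ℕ → ℕ → ℕ) (hT1 : ∀ k n, 1 ≤ T k n)
    (hT : ∀ k, Tendsto (fun n : ℕ => (T k n : ℝ) * Real.log (Real.log n) / Real.log n)
        atTop (𝓝 0)) :
    ∀ᶠ k : ℕ in atTop, ∀ᶠ n : ℕ in atTop, ∀ P K v : ℕ,
      P ≤ f k * n ^ c → K ≤ f k * n ^ c → v ≤ g k * (Nat.log 2 (f k * n ^ c) + 1) →
      ∀ R : OutMachine (Pairs n) P (Clause v d), R.Lists K →
        ∃ G : SimpleGraph (Fin n),
          ¬ (Sat (R.output (T k n) (adjBits G)) ↔ ¬ G.CliqueFree k) := by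
  obtain ⟨α, hα, H⟩ := m1_red (1 / 2) (by norm_num)
  have hα4 : ∀ᶠ n : ℕ in atTop, (4 : ℝ) ≤ (n : ℝ) ^ α :=
    ((tendsto_rpow_atTop hα).comp tendsto_natCast_atTop_atTop).eventually_ge_atTop 4
  filter_upwards [H d c f g T hT1 hT, eventually_ge_atTop 1] with k hk hk1
  filter_upwards [hk, hα4, eventually_ge_atTop 1] with n hn h4 hn1
  intro P K v hP hK hv R hR
  have hn0 : (0 : ℝ) < n := by exact_mod_cast hn1
  obtain ⟨R', hR'⟩ : ∃ R' : OutMachine (Pairs n) P (Fin 1 × Clause v d),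
    R' = ⟨R.M, fun i => R.L i.2, fun i => R.sel i.2⟩ := ⟨_, rfl⟩
  have hR'l : R'.Lists K := by
    rw [hR']
    exact ⟨hR.1, fun i => hR.2 i.2⟩
  have hout : ∀ x c, R'.output (T k n) x (0, c) = R.output (T k n) x c := by
    intro x c
    rw [hR']
    rfl
  have hsm : (n : ℝ) ^ (-α) ≤ 1 / 4 := by
    rw [Real.rpow_neg hn0.le, ← one_div]
    exact one_div_le_one_div_of_le (by norm_num) h4
  obtain ⟨G, hG⟩ := hn P K v 1 hP hK hv (by push_cast; linarith) Unit (fun _ => 1)
    (fun _ => zero_le_one) (by simp) (fun _ => R') (fun _ b => b 0) (fun _ => hR'l)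
  refine ⟨G, fun hiff => ?_⟩
  have hev : evalSat (fun b : Fin 1 → Bool => b 0) (R'.output (T k n) (adjBits G)) =
      decide (Sat (R.output (T k n) (adjBits G))) := by
    unfold evalSat
    simp only [hout]
  unfold prAns at hG
  simp only [Finset.univ_unique, Finset.sum_singleton, hev] at hG
  rcases hG with ⟨h1, h2⟩ | ⟨h1, h2⟩
  · rw [if_pos (by rw [decide_eq_true_eq]; exact hiff.2 h1)] at h2
    linarith
  · have hfree : G.CliqueFree k := by
      intro S hS
      have h3 := h1 S hS.1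
      rw [hS.2] at h3
      have : (1 : ℝ) ≤ k := by exact_mod_cast hk1
      linarith
    rw [if_pos (by rw [decide_eq_false_iff_not]; exact fun h => (hiff.1 h) hfree)] at h2
    linarith

end Pool.Agent.W980.GR
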